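import Pool.Agent.H.MP_5e019f_nt.A

set_option autoImplicit false
open Finset Filter

namespace Pool.Agent.Results.MP_5e019f_nt.No

open Classical in
/-- largest size of a subset of `[n]` with no product of `k` distinct elements a `d`-th power -/
noncomputable def F (k d n : ℕ) : ℕ :=
  ((Icc 1 n).powerset.filter fun A : Finset ℕ =>
    ∀ S ⊆ A, S.card = k → ∀ x : ℕ, 0 < x → ∏ a ∈ S, a ≠ x ^ d).sup card

open Classical in
/-- the same with repetitions allowed -/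
noncomputable def f (k d n : ℕ) : ℕ :=
  ((Icc 1 n).powerset.filter fun A : Finset ℕ =>
    ∀ a : Fin k → ℕ, (∀ i, a i ∈ A) → ∀ x : ℕ, 0 < x → ∏ i, a i ≠ x ^ d).sup card

theorem result :
    Tendsto (fun n : ℕ => ((n : ℝ) - F 2 4 n) / (n : ℝ) ^ ((2 : ℝ) / 4)) atTop atTop ∧
    ¬ ∀ k d : ℕ, 1 < k → k < d → 4 ≤ d → ∃ c C : ℝ, 0 < c ∧ c ≤ C ∧ ∀ᶠ n : ℕ in atTop,
      c * (n : ℝ) ^ ((k : ℝ) / d) ≤ (n : ℝ) - F k d n ∧ (n : ℝ) - F k d n ≤ (n : ℝ) - f k d n ∧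
        (n : ℝ) - f k d n ≤ C * (n : ℝ) ^ ((k : ℝ) / d) := by
  classical
  have key : ∀ C : ℝ, ∀ᶠ n : ℕ in atTop, C * (n : ℝ) ^ ((2 : ℝ) / 4) < (n : ℝ) - F 2 4 n := by
    intro C
    filter_upwards [H.MP_5e019f_nt.main C] with n hn
    have e : (n : ℝ) ^ ((2 : ℝ) / 4) = √n := by
      rw [Real.sqrt_eq_rpow]; norm_num
    obtain ⟨A, hA, hc⟩ := Finset.exists_mem_eq_sup ((Icc 1 n).powerset.filter fun A : Finset ℕ =>
      ∀ S ⊆ A, S.card = 2 → ∀ x : ℕ, 0 < x → ∏ a ∈ S, a ≠ x ^ 4)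
      ⟨∅, mem_filter.2 ⟨by simp, fun S hS h => by simp [subset_empty.1 hS] at h⟩⟩ card
    obtain ⟨h1, h2⟩ := mem_filter.1 hA
    have hF : F 2 4 n = A.card := by unfold F; convert hc
    rw [e, hF]
    refine hn A (mem_powerset.1 h1) fun a ha b hb hab x hx => ?_
    have := h2 {a, b} (by simp [insert_subset_iff, ha, hb]) (card_pair hab) x hx
    rwa [prod_pair hab] at this
  refine ⟨tendsto_atTop.2 fun C => ?_, fun H => ?_⟩
  · filter_upwards [key C, eventually_gt_atTop 0] with n hn h0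
    rw [le_div_iff₀ (by positivity)]
    exact hn.le
  · obtain ⟨c, C, -, -, h⟩ := H 2 4 (by norm_num) (by norm_num) le_rfl
    obtain ⟨n, h1, h2⟩ := (h.and (key C)).exists
    push_cast at h1
    linarith [h1.2.1, h1.2.2]

end Pool.Agent.Results.MP_5e019f_nt.No
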